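import Mathlib

set_option autoImplicit false

namespace Pool.Agent.Helper93.D4

open scoped BigOperators
open MvPolynomial

/-- chain rule -/
theorem pderiv_aeval_comp {r n : ℕ} (P : Fin r → MvPolynomial (Fin n) ℂ)
    (F : MvPolynomial (Fin r) ℂ) (j : Fin n) :
    pderiv j (aeval P F) = ∑ i, aeval P (pderiv i F) * pderiv j (P i) := by
  induction F using MvPolynomial.induction_on with
  | C c => simp
  | add F G hF hG =>
    simp only [map_add, hF, hG, add_mul, Finset.sum_add_distrib]
  | mul_X F k hF =>
    rw [map_mul, aeval_X, Derivation.leibniz, hF]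
    have h1 : ∀ i, aeval P (pderiv i (F * X k)) * pderiv j (P i) =
        (if i = k then aeval P F * pderiv j (P k) else 0) +
        P k * (aeval P (pderiv i F) * pderiv j (P i)) := by
      intro i
      rw [Derivation.leibniz, map_add, smul_eq_mul, smul_eq_mul, map_mul, map_mul, aeval_X]
      by_cases hik : i = k
      · subst hik
        rw [pderiv_X_self, map_one, if_pos rfl]
        ring
      · rw [pderiv_X_of_ne (Ne.symm hik), map_zero, if_neg hik]
        ring
    rw [Finset.sum_congr rfl (fun i _ => h1 i), Finset.sum_add_distrib, Finset.sum_ite_eq',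
      if_pos (Finset.mem_univ k), ← Finset.mul_sum]
    simp only [smul_eq_mul]

theorem eq_C_of_pderiv_eq_zero {r : ℕ} (F : MvPolynomial (Fin r) ℂ)
    (h : ∀ i, pderiv i F = 0) : F = C (coeff 0 F) := by
  classical
  ext m
  rw [coeff_C]
  by_cases hm : 0 = m
  · subst hm; simp
  · rw [if_neg hm]
    obtain ⟨i, hi⟩ := Finsupp.ne_iff.mp (Ne.symm hm)
    have h1 : Finsupp.single i 1 ≤ m := by
      rw [Finsupp.single_le_iff]
      exact Nat.one_le_iff_ne_zero.mpr hi
    have h2 : m = (m - Finsupp.single i 1) + Finsupp.single i 1 := (tsub_add_cancel_of_le h1).symm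
    have h3 := congrArg (coeff (m - Finsupp.single i 1)) (h i)
    rw [coeff_pderiv, ← h2, coeff_zero] at h3
    rcases mul_eq_zero.mp h3 with h4 | h4
    · exact h4
    · exfalso
      have : (((m - Finsupp.single i 1 : Fin r →₀ ℕ) i + 1 : ℕ) : ℂ) = 0 := by
        push_cast
        exact h4
      rw [Nat.cast_eq_zero] at this
      omega

theorem totalDegree_pderiv_lt {r : ℕ} (F : MvPolynomial (Fin r) ℂ) (i : Fin r)
    (h : pderiv i F ≠ 0) : (pderiv i F).totalDegree < F.totalDegree := by
  classical
  obtain ⟨m, hm, hdeg⟩ : ∃ m ∈ (pderiv i F).support, (pderiv i F).totalDegree = m.degree := by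
    obtain ⟨m, hm1, hm2⟩ := Finset.exists_mem_eq_sup (pderiv i F).support
      (by rwa [Finset.nonempty_iff_ne_empty, Ne, MvPolynomial.support_eq_empty])
      (fun s => s.sum fun _ e => e)
    exact ⟨m, hm1, hm2⟩
  rw [mem_support_iff, coeff_pderiv] at hm
  have h1 : coeff (m + Finsupp.single i 1) F ≠ 0 := left_ne_zero_of_mul hm
  have h2 := le_totalDegree (mem_support_iff.mpr h1)
  have h3 : ((m + Finsupp.single i 1).sum fun _ e => e) = m.degree + 1 := by
    have : (m + Finsupp.single i 1).degree = m.degree + 1 := by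
      rw [map_add, Finsupp.degree_single]
    exact this
  rw [hdeg]
  omega

/-- Jacobian criterion, easy direction. -/
theorem algInd_of_jac {r : ℕ} (P : Fin r → MvPolynomial (Fin r) ℂ)
    (h : Matrix.det (Matrix.of fun i j => MvPolynomial.pderiv j (P i)) ≠ 0) :
    AlgebraicIndependent ℂ P := by
  rw [algebraicIndependent_iff]
  have key : ∀ n : ℕ, ∀ F : MvPolynomial (Fin r) ℂ, F.totalDegree = n → aeval P F = 0 → F = 0 := by
    intro n
    induction n using Nat.strong_induction_on with
    | _ n ih =>
    intro F hn hF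
    have h1 : Matrix.vecMul (fun i => aeval P (pderiv i F))
        (Matrix.of fun i j => MvPolynomial.pderiv j (P i)) = 0 := by
      funext j
      have h2 := pderiv_aeval_comp P F j
      rw [hF, map_zero] at h2
      exact h2.symm
    have h3 := Matrix.eq_zero_of_vecMul_eq_zero h h1
    have h4 : ∀ i, pderiv i F = 0 := by
      intro i
      by_contra hne
      have h5 := totalDegree_pderiv_lt F i hne
      exact hne (ih _ (hn ▸ h5) _ rfl (congrFun h3 i))
    have h6 := eq_C_of_pderiv_eq_zero F h4
    rw [h6, aeval_C] at hF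
    have h7 : coeff 0 F = 0 := by
      have h8 : (C (coeff 0 F) : MvPolynomial (Fin r) ℂ) = 0 := hF
      exact C_eq_zero.mp h8
    rw [h6, h7, C_0]
  intro F hF
  exact key _ F rfl hF

end Pool.Agent.Helper93.D4
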