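import Pool.Agent.Helper93.D4.M1

set_option autoImplicit false

namespace Pool.Agent.Helper93.D4

open scoped BigOperators
open MvPolynomial

section
variable {n : ℕ} {K : Type} [Field K] [Algebra (MvPolynomial (Fin n) ℂ) K]

/-- gradient with values in the fraction field -/
noncomputable def grad (K : Type) [Field K] [Algebra (MvPolynomial (Fin n) ℂ) K]
    (a : MvPolynomial (Fin n) ℂ) : Fin n → K :=
  fun j => algebraMap _ _ (pderiv j a)

theorem grad_add (a b : MvPolynomial (Fin n) ℂ) : grad K (a + b) = grad K a + grad K b := by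
  funext j; simp [grad]

theorem grad_mul (a b : MvPolynomial (Fin n) ℂ) :
    grad K (a * b) = algebraMap (MvPolynomial (Fin n) ℂ) K a • grad K b +
      algebraMap (MvPolynomial (Fin n) ℂ) K b • grad K a := by
  funext j
  simp only [grad, Derivation.leibniz, smul_eq_mul, map_add, map_mul, Pi.add_apply, Pi.smul_apply]

theorem grad_X (k : Fin n) : grad K (X k : MvPolynomial (Fin n) ℂ) = Pi.single k 1 := by
  funext j
  unfold grad
  rw [pderiv_X]
  by_cases h : j = k
  · subst h; simp
  · rw [Pi.single_eq_of_ne (Ne.symm h), Pi.single_eq_of_ne h, map_zero]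

theorem grad_pow (x : MvPolynomial (Fin n) ℂ) (m : ℕ) : grad K (x ^ (m + 1)) =
    algebraMap (MvPolynomial (Fin n) ℂ) K
      (((m : MvPolynomial (Fin n) ℂ) + 1) * x ^ m) • grad K x := by
  induction m with
  | zero => simp
  | succ m ih =>
    rw [pow_succ, grad_mul, ih, smul_smul, ← map_mul, ← add_smul, ← map_add]
    congr 2
    push_cast
    ring

theorem grad_mem_of_adjoin (u : Set (MvPolynomial (Fin n) ℂ)) {a : MvPolynomial (Fin n) ℂ}
    (ha : a ∈ Algebra.adjoin ℂ u) :
    grad K a ∈ Submodule.span K (grad K '' u) := by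
  induction ha using Algebra.adjoin_induction with
  | mem x hx => exact Submodule.subset_span (Set.mem_image_of_mem _ hx)
  | algebraMap c =>
    have : grad K (algebraMap ℂ (MvPolynomial (Fin n) ℂ) c) = 0 := by
      funext j
      have h1 : pderiv j (algebraMap ℂ (MvPolynomial (Fin n) ℂ) c) = 0 := pderiv_C
      simp [grad]
    rw [this]
    exact Submodule.zero_mem _
  | add x y _ _ hx hy => rw [grad_add]; exact Submodule.add_mem _ hx hy
  | mul x y _ _ hx hy =>
    rw [grad_mul]
    exact Submodule.add_mem _ (Submodule.smul_mem _ _ hy) (Submodule.smul_mem _ _ hx)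

theorem grad_aeval (u : Set (MvPolynomial (Fin n) ℂ)) (x : MvPolynomial (Fin n) ℂ)
    (p : Polynomial (Algebra.adjoin ℂ u)) :
    grad K (Polynomial.aeval x p) -
      algebraMap (MvPolynomial (Fin n) ℂ) K
        (Polynomial.aeval x (Polynomial.derivative p)) • grad K x ∈
    Submodule.span K (grad K '' u) := by
  induction p using Polynomial.induction_on with
  | C a =>
    rw [Polynomial.aeval_C, Polynomial.derivative_C, map_zero, map_zero, zero_smul, sub_zero]
    exact grad_mem_of_adjoin u a.2
  | add p q hp hq =>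
    have h := Submodule.add_mem _ hp hq
    convert h using 1
    simp only [map_add, grad_add, add_smul]
    abel
  | monomial m a _ =>
    have h1 : grad K (Polynomial.aeval x (Polynomial.C a * Polynomial.X ^ (m + 1))) -
      algebraMap (MvPolynomial (Fin n) ℂ) K
        (Polynomial.aeval x (Polynomial.derivative (Polynomial.C a * Polynomial.X ^ (m + 1)))) • grad K x =
      algebraMap (MvPolynomial (Fin n) ℂ) K (x ^ (m + 1)) •
        grad K (a : MvPolynomial (Fin n) ℂ) := by
      rw [map_mul, Polynomial.aeval_C, map_pow, Polynomial.aeval_X, Polynomial.derivative_C_mul,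
        Polynomial.derivative_X_pow, map_mul, Polynomial.aeval_C]
      have h2 : (algebraMap (Algebra.adjoin ℂ u) (MvPolynomial (Fin n) ℂ)) a = a := rfl
      rw [h2, grad_mul, grad_pow, smul_smul, ← map_mul]
      have h3 : (Polynomial.aeval x) (Polynomial.C (((m + 1 : ℕ) : Algebra.adjoin ℂ u)) *
          Polynomial.X ^ (m + 1 - 1)) = ((m : MvPolynomial (Fin n) ℂ) + 1) * x ^ m := by
        simp
      rw [h3]
      abel
    rw [h1]
    exact Submodule.smul_mem _ _ (grad_mem_of_adjoin u a.2)

theorem grad_mem_of_algebraic [IsFractionRing (MvPolynomial (Fin n) ℂ) K] (u : Set (MvPolynomial (Fin n) ℂ)) {x : MvPolynomial (Fin n) ℂ}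
    (hx : IsAlgebraic (Algebra.adjoin ℂ u) x) :
    grad K x ∈ Submodule.span K (grad K '' u) := by
  classical
  have hex : ∃ m : ℕ, ∃ p : Polynomial (Algebra.adjoin ℂ u), p ≠ 0 ∧ Polynomial.aeval x p = 0 ∧
      p.natDegree = m := by
    obtain ⟨p, hp, hpx⟩ := hx
    exact ⟨_, p, hp, hpx, rfl⟩
  obtain ⟨p, hp, hpx, hpd⟩ := Nat.find_spec hex
  have hmin : ∀ q : Polynomial (Algebra.adjoin ℂ u), q ≠ 0 → q.natDegree < p.natDegree →
      Polynomial.aeval x q ≠ 0 := by
    intro q hq hlt h0
    exact Nat.find_min hex (hpd ▸ hlt) ⟨q, hq, h0, rfl⟩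
  have hpos : p.natDegree ≠ 0 := by
    intro h0
    rw [Polynomial.natDegree_eq_zero] at h0
    obtain ⟨c, rfl⟩ := h0
    rw [Polynomial.aeval_C] at hpx
    apply hp
    have : c = 0 := Subtype.ext hpx
    rw [this, Polynomial.C_0]
  have hd : Polynomial.derivative p ≠ 0 := by
    intro h0
    exact hpos (Polynomial.derivative_eq_zero.mp h0)
  have hd2 := hmin _ hd (Polynomial.natDegree_derivative_lt hpos)
  have h1 := grad_aeval (K := K) u x p
  rw [hpx] at h1
  have h2 : grad K (0 : MvPolynomial (Fin n) ℂ) = 0 := by funext j; simp [grad]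
  rw [h2, zero_sub] at h1
  have h3 := (Submodule.neg_mem_iff _).mp h1
  have h4 : algebraMap (MvPolynomial (Fin n) ℂ) K
        (Polynomial.aeval x (Polynomial.derivative p)) ≠ 0 := by
    intro h5
    apply hd2
    exact (IsFractionRing.injective (MvPolynomial (Fin n) ℂ) K)
      (h5.trans (map_zero _).symm)
  exact (Submodule.smul_mem_iff _ h4).mp h3

theorem exists_minor {K : Type*} [Field K] {r n : ℕ} (M : Fin r → Fin n → K)
    (h : LinearIndependent K M) : ∃ e : Fin r → Fin n, (Matrix.of fun i j => M i (e j)).det ≠ 0 := by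
  classical
  let A : Matrix (Fin r) (Fin n) K := Matrix.of M
  have hrank : A.rank = r := by
    have := LinearIndependent.rank_matrix (M := A) h
    simpa using this
  have hspan : Module.finrank K (Submodule.span K (Set.range A.col)) = r := by
    rw [← Matrix.rank_eq_finrank_span_cols]; exact hrank
  have key := Submodule.exists_fun_fin_finrank_span_eq K (Set.range A.col)
  rw [hspan] at key
  obtain ⟨f, hf1, hf2, hf3⟩ := key
  choose e he using hf1
  refine ⟨e, ?_⟩
  have h1 : LinearIndependent K (Matrix.of fun i j => M i (e j)).col := by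
    have h2 : (Matrix.of fun i j => M i (e j)).col = f := by
      funext j
      rw [← he j]
      rfl
    rw [h2]
    exact hf3
  rw [Matrix.linearIndependent_cols_iff_isUnit] at h1
  exact ((Matrix.isUnit_iff_isUnit_det _).mp h1).ne_zero

theorem det_ne_of_map {A K : Type*} [CommRing A] [CommRing K] (f : A →+* K) {r : ℕ}
    (M : Matrix (Fin r) (Fin r) A) (h : (M.map f).det ≠ 0) : M.det ≠ 0 := by
  intro h0
  apply h
  rw [← RingHom.mapMatrix_apply, ← RingHom.map_det, h0, map_zero]

/-- Jacobian criterion, characteristic zero direction. -/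
theorem jac_of_algInd' {n r : ℕ} (K : Type) [Field K] [Algebra (MvPolynomial (Fin n) ℂ) K]
    [IsFractionRing (MvPolynomial (Fin n) ℂ) K] (P : Fin r → MvPolynomial (Fin n) ℂ)
    (h : AlgebraicIndependent ℂ P) :
    ∃ e : Fin r → Fin n, Matrix.det (Matrix.of fun i j => MvPolynomial.pderiv (e j) (P i)) ≠ 0 := by
  classical
  have hs : AlgebraicIndepOn ℂ id (Set.range P) := h.to_subtype_range
  obtain ⟨u, hu1, hu2⟩ := exists_isTranscendenceBasis_superset hs
  have hcard : Cardinal.mk u = Cardinal.mk (Fin n) :=
    IsTranscendenceBasis.cardinalMk_eq hu2 (IsTranscendenceBasis.mvPolynomial (Fin n) ℂ)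
  have hfin : Finite u := by
    rw [← Cardinal.lt_aleph0_iff_finite, hcard]
    exact Cardinal.mk_lt_aleph0
  have : Fintype u := Fintype.ofFinite u
  have hcard2 : Fintype.card u = n := by
    rw [Cardinal.mk_fintype, Cardinal.mk_fin] at hcard
    exact_mod_cast hcard
  have halg := hu2.isAlgebraic
  have hspan : Submodule.span K (grad K '' u) = ⊤ := by
    rw [eq_top_iff]
    intro v _
    have h1 : v = ∑ k, v k • (grad K (X k : MvPolynomial (Fin n) ℂ)) := by
      funext j
      rw [Finset.sum_apply, Finset.sum_eq_single j]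
      · rw [grad_X]; simp
      · intro k _ hk
        rw [grad_X]; simp [Ne.symm hk]
      · intro h'; exact absurd (Finset.mem_univ _) h'
    rw [h1]
    apply Submodule.sum_mem
    intro k _
    apply Submodule.smul_mem
    apply grad_mem_of_algebraic
    have h2 := halg.isAlgebraic (X k)
    rwa [Subtype.range_coe] at h2
  have hli : LinearIndependent K
      (fun y : u => grad K (y : MvPolynomial (Fin n) ℂ)) := by
    apply linearIndependent_of_top_le_span_of_card_eq_finrank
    · rw [← hspan]
      apply Submodule.span_mono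
      rintro _ ⟨y, hy, rfl⟩
      exact ⟨⟨y, hy⟩, rfl⟩
    · rw [hcard2]; simp
  have hli2 : LinearIndependent K (fun i => grad K (P i)) := by
    have hinj : Function.Injective (fun i : Fin r => (⟨P i, hu1 ⟨i, rfl⟩⟩ : u)) := by
      intro i j hij
      exact h.injective (congrArg Subtype.val hij)
    have h3 := hli.comp (fun i : Fin r => (⟨P i, hu1 ⟨i, rfl⟩⟩ : u)) hinj
    have h4 : (fun y : u => grad K (y : MvPolynomial (Fin n) ℂ)) ∘
      (fun i : Fin r => (⟨P i, hu1 ⟨i, rfl⟩⟩ : u)) = fun i => grad K (P i) := rfl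
    rw [h4] at h3
    exact h3
  obtain ⟨e, he⟩ := exists_minor _ hli2
  refine ⟨e, ?_⟩
  exact det_ne_of_map (algebraMap (MvPolynomial (Fin n) ℂ)
    K) _ he

/-- Jacobian criterion, characteristic zero direction. -/
theorem jac_of_algInd {n r : ℕ} (P : Fin r → MvPolynomial (Fin n) ℂ)
    (h : AlgebraicIndependent ℂ P) :
    ∃ e : Fin r → Fin n, Matrix.det (Matrix.of fun i j => MvPolynomial.pderiv (e j) (P i)) ≠ 0 :=
  jac_of_algInd' (FractionRing (MvPolynomial (Fin n) ℂ)) P h

end

end Pool.Agent.Helper93.D4
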